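import Pool.Agent.Helper73.LF.Goals

/-!
# LF-LOG: the sum of `1 / (q (log q)^(1+e))`
-/

set_option autoImplicit false

open Finset

namespace Pool.Agent.Helper43.LF

open Pool.Agent.Helper73.LF

theorem log_step (e u v q : ℝ) (he : 0 < e) (hu : 0 < u) (huv : u < v) (hq : 0 < q)
    (h : 1 / q ≤ v - u) : 1 / (q * v ^ (1 + e)) ≤ 1 / e / u ^ e - 1 / e / v ^ e := by
  have hv : 0 < v := hu.trans huv
  have hue : 0 < u ^ e := Real.rpow_pos_of_pos hu e
  have hve : 0 < v ^ e := Real.rpow_pos_of_pos hv e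
  have h1 : v ^ (1 + e) = v * v ^ e := by rw [Real.rpow_add hv, Real.rpow_one]
  have hvu : 0 < v / u := div_pos hv hu
  have h2 : 1 + e * (1 - u / v) ≤ v ^ e / u ^ e := by
    have h3 : 1 - (v / u)⁻¹ ≤ Real.log (v / u) := Real.one_sub_inv_le_log_of_pos hvu
    rw [inv_div] at h3
    have h4 : (v / u) ^ e = v ^ e / u ^ e := Real.div_rpow hv.le hu.le e
    have h5 : (v / u) ^ e = Real.exp (Real.log (v / u) * e) := Real.rpow_def_of_pos hvu e
    have h6 : Real.log (v / u) * e + 1 ≤ Real.exp (Real.log (v / u) * e) := Real.add_one_le_exp _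
    have h7 : e * (1 - u / v) ≤ Real.log (v / u) * e := by
      rw [mul_comm e]
      exact mul_le_mul_of_nonneg_right h3 he.le
    linarith
  have h8 : 1 / e / u ^ e - 1 / e / v ^ e = (v ^ e / u ^ e - 1) / (e * v ^ e) := by
    field_simp
  rw [h8, h1, div_le_div_iff₀ (by positivity) (by positivity)]
  have h9 : e * (1 - u / v) ≤ v ^ e / u ^ e - 1 := by linarith
  have h10 : 1 ≤ q * (v - u) := by
    rw [div_le_iff₀ hq] at h
    linarith
  have h11 : e * (1 - u / v) * (q * (v * v ^ e)) ≤ (v ^ e / u ^ e - 1) * (q * (v * v ^ e)) :=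
    mul_le_mul_of_nonneg_right h9 (by positivity)
  refine le_trans ?_ h11
  have h12 : e * (1 - u / v) * (q * (v * v ^ e)) = (q * (v - u)) * (e * v ^ e) := by
    field_simp
  rw [h12]
  exact mul_le_mul_of_nonneg_right h10 (by positivity)

theorem log_sum : GLog := by
  intro e he Q X hQ
  have hQ' : (2 : ℝ) ≤ Q := by exact_mod_cast hQ
  have hlogQ : 0 < Real.log Q := Real.log_pos (by linarith)
  have hRpos : 0 ≤ (1 + 1 / e) / Real.log Q ^ e := by positivity
  by_cases hX : X < Q
  · rw [Finset.Icc_eq_empty (by omega), Finset.sum_empty]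
    exact hRpos
  push Not at hX
  have key : ∀ n : ℕ, ∑ q ∈ Icc Q (Q + n), 1 / ((q : ℝ) * Real.log q ^ (1 + e)) +
      1 / e / Real.log ((Q + n : ℕ) : ℝ) ^ e ≤ (1 + 1 / e) / Real.log Q ^ e := by
    intro n
    induction n with
    | zero =>
      rw [add_zero, Finset.Icc_self, Finset.sum_singleton, add_div]
      have h1 : 1 / ((Q : ℝ) * Real.log Q ^ (1 + e)) ≤ 1 / Real.log Q ^ e := by
        rw [Real.rpow_add hlogQ, Real.rpow_one]
        have hle : 0 < Real.log Q ^ e := Real.rpow_pos_of_pos hlogQ e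
        have h2 : 1 ≤ (Q : ℝ) * Real.log Q := by
          have h3 : Real.log 2 ≤ Real.log Q := Real.log_le_log (by norm_num) hQ'
          have h4 := Real.log_two_gt_d9
          nlinarith
        apply one_div_le_one_div_of_le hle
        nlinarith
      linarith
    | succ n ih =>
      rw [← add_assoc, Finset.sum_Icc_succ_top (by omega)]
      have hm : (2 : ℝ) ≤ ((Q + n : ℕ) : ℝ) := by
        push_cast
        have : (0 : ℝ) ≤ n := Nat.cast_nonneg n
        linarith
      set m : ℕ := Q + n with hmdef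
      have hu : 0 < Real.log (m : ℝ) := Real.log_pos (by linarith)
      have hmm : ((m + 1 : ℕ) : ℝ) = (m : ℝ) + 1 := by push_cast; ring
      have hm0 : (0 : ℝ) < m := by linarith
      have huv : Real.log (m : ℝ) < Real.log ((m + 1 : ℕ) : ℝ) :=
        Real.log_lt_log hm0 (by rw [hmm]; linarith)
      have hq : (0 : ℝ) < ((m + 1 : ℕ) : ℝ) := by rw [hmm]; linarith
      have hd : 1 / ((m + 1 : ℕ) : ℝ) ≤ Real.log ((m + 1 : ℕ) : ℝ) - Real.log (m : ℝ) := by
        rw [← Real.log_div hq.ne' hm0.ne']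
        have h1 := Real.one_sub_inv_le_log_of_pos (div_pos hq hm0)
        refine le_trans (le_of_eq ?_) h1
        rw [inv_div, hmm]
        field_simp
        ring
      have := log_step e _ _ _ he hu huv hq hd
      linarith
  obtain ⟨n, rfl⟩ := Nat.exists_eq_add_of_le hX
  have h1 := key n
  have h2 : 0 ≤ 1 / e / Real.log ((Q + n : ℕ) : ℝ) ^ e := by
    have : 0 ≤ Real.log ((Q + n : ℕ) : ℝ) := Real.log_natCast_nonneg _
    positivity
  linarith

end Pool.Agent.Helper43.LF
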